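import Pool.Agent.H82.EUC.Stmts

/-!
Row K5S of the board euc (MP_d7577e_lc): the parity argument for the complete graph with five
vertices.
-/

set_option autoImplicit false

namespace Pool.EUC

namespace K5SA

theorem st_add {a b : ℝ} (h : a ≠ b) : st a b + st b a = 1 := by
  unfold st
  rcases lt_or_gt_of_ne h with h | h
  · rw [if_pos h.le, if_neg (not_le.2 h), add_zero]
  · rw [if_neg (not_le.2 h), if_pos h.le, zero_add]

end K5SA

open K5SA in
theorem k5s_thm : K5S_S := by
  intro φ β hβ h
  have h2 : (2 : ZMod 2) = 0 := rfl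
  have e0123 := h 0 1 2 3 (by decide) (by decide) (by decide) (by decide) (by decide)
  have e0124 := h 0 1 2 4 (by decide) (by decide) (by decide) (by decide) (by decide)
  have e0134 := h 0 1 3 4 (by decide) (by decide) (by decide) (by decide) (by decide)
  have e0213 := h 0 2 1 3 (by decide) (by decide) (by decide) (by decide) (by decide)
  have e0214 := h 0 2 1 4 (by decide) (by decide) (by decide) (by decide) (by decide)
  have e0234 := h 0 2 3 4 (by decide) (by decide) (by decide) (by decide) (by decide)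
  have e0312 := h 0 3 1 2 (by decide) (by decide) (by decide) (by decide) (by decide)
  have e0314 := h 0 3 1 4 (by decide) (by decide) (by decide) (by decide) (by decide)
  have e0324 := h 0 3 2 4 (by decide) (by decide) (by decide) (by decide) (by decide)
  have e0412 := h 0 4 1 2 (by decide) (by decide) (by decide) (by decide) (by decide)
  have e0413 := h 0 4 1 3 (by decide) (by decide) (by decide) (by decide) (by decide)
  have e0423 := h 0 4 2 3 (by decide) (by decide) (by decide) (by decide) (by decide)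
  have e1234 := h 1 2 3 4 (by decide) (by decide) (by decide) (by decide) (by decide)
  have e1324 := h 1 3 2 4 (by decide) (by decide) (by decide) (by decide) (by decide)
  have e1423 := h 1 4 2 3 (by decide) (by decide) (by decide) (by decide) (by decide)
  have s12 : st (β 1) (β 2) + st (β 2) (β 1) = 1 := st_add (hβ.ne (by decide))
  have s13 : st (β 1) (β 3) + st (β 3) (β 1) = 1 := st_add (hβ.ne (by decide))
  have s14 : st (β 1) (β 4) + st (β 4) (β 1) = 1 := st_add (hβ.ne (by decide))
  have s23 : st (β 2) (β 3) + st (β 3) (β 2) = 1 := st_add (hβ.ne (by decide))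
  have s24 : st (β 2) (β 4) + st (β 4) (β 2) = 1 := st_add (hβ.ne (by decide))
  have s34 : st (β 3) (β 4) + st (β 4) (β 3) = 1 := st_add (hβ.ne (by decide))
  have hc : (1 : ZMod 2) = 0 := by
        linear_combination e0123 + e0124 + e0134 + e0213 + e0214 + e0234 + e0312 + e0314 + e0324
      + e0412 + e0413 + e0423 + e1234 + e1324 + e1423 - (2 * s12 + 2 * s13 + 2 * s14 + 3 * s23 +
      3 * s24 + 3 * s34) - (φ 0 1 2 + φ 0 1 3 + φ 0 1 4 + φ 0 2 1 + φ 0 2 3 + φ 0 2 4 + φ 0 3 1
      + φ 0 3 2 + φ 0 3 4 + φ 0 4 1 + φ 0 4 2 + φ 0 4 3 + φ 1 2 0 + φ 1 2 3 + φ 1 2 4 + φ 1 3 0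
      + φ 1 3 2 + φ 1 3 4 + φ 1 4 0 + φ 1 4 2 + φ 1 4 3 + φ 2 3 0 + φ 2 3 1 + φ 2 3 4 + φ 2 4 0
      + φ 2 4 1 + φ 2 4 3 + φ 3 4 0 + φ 3 4 1 + φ 3 4 2 + st (β 2) (β 0) + st (β 3) (β 0) + st
      (β 1) (β 0) + st (β 2) (β 0) + st (β 4) (β 0) + st (β 1) (β 0) + st (β 3) (β 0) + st (β 4)
      (β 0) + st (β 1) (β 0) + st (β 3) (β 0) + st (β 4) (β 0) + st (β 2) (β 0) + st (β 3) (β 1)
      + st (β 4) (β 1) + st (β 2) (β 1) + 7) * h2
  exact absurd hc (by decide)

end Pool.EUC
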