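import Pool.Agent.H82.EUC.Stmts

/-!
Row SEQ of the board euc (MP_d7577e_lc): paths as sequences.
-/

set_option autoImplicit false

namespace Pool.EUC

theorem seq_thm : SEQ_S := by
  intro α r a b h
  induction h with
  | refl => exact ⟨0, fun _ => a, rfl, rfl, fun t ht => absurd ht (Nat.not_lt_zero t)⟩
  | @tail b c _ hbc ih =>
    obtain ⟨N, z, h0, hN, hz⟩ := ih
    refine ⟨N + 1, fun t => if t ≤ N then z t else c, ?_, ?_, ?_⟩
    · simp [h0]
    · simp
    · intro t ht
      rcases Nat.lt_or_ge t N with h | h
      · have h1 : t ≤ N := h.le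
        have h2 : t + 1 ≤ N := h
        simp only [h1, h2, if_true]
        exact hz t h
      · have h1 : t = N := by omega
        subst h1
        have h2 : ¬ (t + 1 ≤ t) := by omega
        simp only [le_refl, h2, if_true, if_false]
        rw [hN]
        exact hbc

end Pool.EUC
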