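import Pool.Agent.H82.EUC.Stmts

/-!
Row XNG of the board euc (MP_d7577e_lc): no crossing of steps of independent edges.
-/

set_option autoImplicit false

namespace Pool.EUC

namespace XNGA

theorem abs_uIcc {p a b c : ℝ} (h : c ∈ Set.uIcc a b) : |p - c| ≤ |p - a| ∨ |p - c| ≤ |p - b| := by
  rw [Set.mem_uIcc] at h
  by_contra hc
  rw [not_or, not_le, not_le] at hc
  obtain ⟨h1, h2⟩ := hc
  rcases abs_cases (p - c) with ⟨e, _⟩ | ⟨e, _⟩ <;> rw [e] at h1 h2 <;>
    rcases h with ⟨h3, h4⟩ | ⟨h3, h4⟩ <;>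
    · have h5 := abs_lt.1 h1
      have h6 := abs_lt.1 h2
      linarith [h5.1, h5.2, h6.1, h6.2]

end XNGA

open XNGA in
theorem xng_thm (h1 : XPT_S) (h2 : DSX_S) : XNG_S := by
  intro n I hM hW F hF u v k l huv huk hul hvk hvl hkl z z' t t' hz ht hc
  obtain ⟨pz, pz', _, _, hzV⟩ := hz
  obtain ⟨pt, pt', hH1, hH2, _⟩ := ht
  obtain ⟨hc1, hc2⟩ := hc
  rcases hzV with he | ⟨hV1, hV2⟩
  · rw [he, Set.uIcc_self, Set.mem_singleton_iff] at hc2
    exact (h1 n I hM hW F hF u v k l huv huk hul hvk hvl hkl z' t' pz' pt').2 hc2.symm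
  · have hd : I.dM t'.2 z.1 ≤ I.dM t'.2 (F.b k l t'.2) := by
      rcases abs_uIcc (p := I.prefM t'.2) hc1 with h | h
      · exact le_trans h hH1.2
      · exact le_trans h hH2.2
    have hv : VSE I.dW F u v z.1 t'.2 := by
      rcases abs_uIcc (p := I.prefW z.1) hc2 with h | h
      · rcases hV1 with ⟨a, b⟩ | ⟨a, b⟩
        · exact Or.inl ⟨a, le_trans h b⟩
        · exact Or.inr ⟨a, le_trans h b⟩
      · rcases hV2 with ⟨a, b⟩ | ⟨a, b⟩
        · exact Or.inl ⟨a, le_trans h b⟩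
        · exact Or.inr ⟨a, le_trans h b⟩
    rcases hH1.1 with hm | hm
    · rcases hv with ⟨a, b⟩ | ⟨a, b⟩
      · exact h2 (Fin n) I.dM I.dW hM hW F hF k l v u hkl hvk.symm huk.symm hvl.symm hul.symm
          huv.symm t'.2 z.1 hm a hd b
      · exact h2 (Fin n) I.dM I.dW hM hW F hF k l u v hkl huk.symm hvk.symm hul.symm hvl.symm
          huv t'.2 z.1 hm a hd b
    · rw [hF.bsymm k l] at hd
      rcases hv with ⟨a, b⟩ | ⟨a, b⟩
      · exact h2 (Fin n) I.dM I.dW hM hW F hF l k v u hkl.symm hvl.symm hul.symm hvk.symm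
          huk.symm huv.symm t'.2 z.1 hm a hd b
      · exact h2 (Fin n) I.dM I.dW hM hW F hF l k u v hkl.symm hul.symm hvl.symm huk.symm
          hvk.symm huv t'.2 z.1 hm a hd b

end Pool.EUC
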